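import Pool.Agent.Q267.E8.Stm

set_option autoImplicit false

/-! Project E8 (helper267), job EXB (helper277). -/

namespace Pool.Agent.Q277.E8

open Finset Pool.Agent.Q267.CDE Pool.Agent.Q267.MW Pool.Agent.Q267.E8

theorem exb : S_EXB := by
  intro p q _ hp
  have hp1 : p.Prime := Fact.out
  have hcard : Nat.card (GaloisField p 2) = p ^ 2 := GaloisField.card p 2 two_ne_zero
  have : Finite (GaloisField p 2) := Nat.finite_of_card_ne_zero (by
    rw [hcard]
    exact pow_ne_zero 2 hp1.ne_zero)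
  obtain ⟨g, hg⟩ := IsCyclic.exists_generator (α := (GaloisField p 2)ˣ)
  have hord : orderOf g = p ^ 2 - 1 := by
    rw [orderOf_eq_card_of_forall_mem_zpowers hg, Nat.card_units, hcard]
  have hprim : IsPrimitiveRoot (g : GaloisField p 2) (p ^ 2 - 1) := by
    rw [IsPrimitiveRoot.coe_units_iff, ← hord]
    exact IsPrimitiveRoot.orderOf g
  have h2 : 2 ≤ p := hp1.two_le
  have hfac : p ^ 2 - 1 = (p - 1) * (p + 1) := by
    obtain ⟨r, rfl⟩ : ∃ r, p = r + 1 := ⟨p - 1, by omega⟩
    rw [Nat.add_sub_cancel]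
    have : (r + 1) ^ 2 = r * (r + 1 + 1) + 1 := by ring
    rw [this, Nat.add_sub_cancel]
  have hpos : 0 < p ^ 2 - 1 := by
    rw [hfac]
    exact Nat.mul_pos (by omega) (by omega)
  have hz0 := hprim.pow hpos hfac
  set z : GaloisField p 2 := (g : GaloisField p 2) ^ (p - 1) with hz
  have hN : 8 * q + 4 = p + 1 := by omega
  have hzne : z ≠ 0 := hz0.ne_zero (by omega)
  have hzp : z ^ p = z⁻¹ := by
    have h1 : z ^ p * z = 1 := by rw [← pow_succ, hz0.pow_eq_one]
    exact eq_inv_of_mul_eq_one_left h1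
  have hzp' : z⁻¹ ^ p = z := by rw [inv_pow, hzp, inv_inv]
  have hval : ∀ i : ℕ, ∃ n : ℤ, (n : GaloisField p 2) = z ^ (2 * i) + z⁻¹ ^ (2 * i) := by
    intro i
    rw [← mem_bot_iff_intCast p, Subfield.mem_bot_iff_pow_eq_self (GaloisField p 2) p, add_pow_char,
      pow_right_comm z, pow_right_comm z⁻¹, hzp, hzp', add_comm]
  choose n hn using hval
  refine ⟨z, fun i => (n i : ZMod p), ?_, fun i => ?_⟩
  · rw [hN]
    exact hz0
  · rw [map_intCast, hn i]

end Pool.Agent.Q277.E8
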