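import Pool.Agent.Q267.E8.Stm

set_option autoImplicit false

/-! Project E8 (helper267), job WB (helper277). -/

namespace Pool.Agent.Q277.E8

open Finset Pool.Agent.Q267.CDE Pool.Agent.Q267.MW Pool.Agent.Q267.E8

/-- the kernel of the reduction is generated by `p` -/
lemma dvd_of_coeff {p : ℕ} [Fact p.Prime] {K : Type} [Field K] [Finite K] [CharP K p]
    {w : WittVector p K} (h : WittVector.constantCoeff w = 0) : (p : WittVector p K) ∣ w := by
  have h1 : w ∈ RingHom.ker (WittVector.constantCoeff (p := p) (R := K)) := h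
  rw [WittVector.ker_constantCoeff, Ideal.mem_span_singleton] at h1
  exact h1

theorem wb : S_WB := by
  intro p m _ K _ _ _ _ a u hp hm hu
  have hp1 : p.Prime := Fact.out
  have hpW : (p : WittVector p K) = 2 * (m : WittVector p K) + 1 := by
    have : ((p : ℕ) : WittVector p K) = ((2 * m + 1 : ℕ) : WittVector p K) := by rw [← hp]
    rw [this]
    push_cast
    ring
  have hchar : ringChar (ZMod p) ≠ 2 := by
    rw [ZMod.ringChar_zmod_n]
    omega
  have heuler : ((quadraticChar (ZMod p) a : ℤ) : ZMod p) = a ^ m := by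
    rw [quadraticChar_eq_pow_of_char_ne_two' hchar, ZMod.card]
    congr 1
    omega
  by_cases ha : a = 0
  · subst ha
    have h0 : WittVector.constantCoeff u = 0 := by rw [hu, map_zero]
    obtain ⟨t, rfl⟩ := dvd_of_coeff h0
    have h1 : ((p : WittVector p K)) ^ 2 ∣ ((p : WittVector p K) * t) ^ m := by
      rw [mul_pow]
      exact Dvd.dvd.mul_right (pow_dvd_pow _ hm) _
    have h2 : ((p : WittVector p K)) ^ 2 ∣ ((p : WittVector p K) * t) ^ (3 * m) := by
      rw [mul_pow]
      exact Dvd.dvd.mul_right (pow_dvd_pow _ (by omega)) _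
    rw [quadraticChar_zero, Int.cast_zero]
    exact dvd_sub (dvd_zero _) (dvd_add (Dvd.dvd.mul_left h1 _) (Dvd.dvd.mul_left h2 _))
  · have h0 : WittVector.constantCoeff (u ^ m - ((quadraticChar (ZMod p) a : ℤ) : WittVector p K)) = 0 := by
      rw [map_sub, map_pow, hu, map_intCast, ← map_pow, ← heuler, map_intCast, sub_self]
    obtain ⟨e, he⟩ := dvd_of_coeff h0
    have hx2 : ((quadraticChar (ZMod p) a : ℤ) : WittVector p K) ^ 2 = 1 := by
      have h3 : (quadraticChar (ZMod p) a) ^ 2 = 1 := quadraticChar_sq_one ha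
      exact_mod_cast congrArg (fun t : ℤ => (t : WittVector p K)) h3
    generalize ((quadraticChar (ZMod p) a : ℤ) : WittVector p K) = x at he hx2
    have hum : u ^ m = x + (p : WittVector p K) * e := by
      rw [← he]
      ring
    have hum3 : u ^ (3 * m) = (x + (p : WittVector p K) * e) ^ 3 := by
      rw [mul_comm, pow_mul, hum]
    rw [hum3, hum]
    refine ⟨-(e + (m : WittVector p K) * (3 * x * e ^ 2 + (p : WittVector p K) * e ^ 3)), ?_⟩
    have key : x - ((1 - (m : WittVector p K)) * (x + (p : WittVector p K) * e) +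
        (m : WittVector p K) * (x + (p : WittVector p K) * e) ^ 3) =
        -((p : WittVector p K) * e * (1 - (m : WittVector p K) + 3 * (m : WittVector p K) * x ^ 2)) +
          (m : WittVector p K) * x * (1 - x ^ 2) -
          (m : WittVector p K) * (p : WittVector p K) ^ 2 * (3 * x * e ^ 2 + (p : WittVector p K) * e ^ 3) := by
      ring
    rw [key, hx2]
    have h4 : (1 - (m : WittVector p K) + 3 * (m : WittVector p K) * 1) = (p : WittVector p K) := by
      rw [hpW]
      ring
    rw [h4]
    ring

end Pool.Agent.Q277.E8
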